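import Mathlib
import Pool.Agent.UMG.StmtsD

/-!
# Squad UMG, block D: row ACN (the number of successful numbers)
-/

set_option autoImplicit false

namespace Pool.Agent.UMG.D.H95

open Finset Pool.Agent.UMG

theorem card_Xs (M : ℕ) (c : Code) : (Xs M c).card = ∏ j ∈ range M, F (j + 1) (cnt c (j + 1)) := by
  unfold Xs
  rw [Fintype.card_piFinset]
  simp only [card_range]
  exact Fin.prod_univ_eq_prod_range (fun j => F (j + 1) (cnt c (j + 1))) M

theorem acn (hEXS : ExsStmt) (hGLN : GlnStmt) (hGCD : GcdStmt) (hCDV : CdvStmt) : AcnStmt := by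
  intro K d hd
  have h1 := hEXS K d (fun y => if y = 0 then 0 else 1) hd (if_pos rfl)
  have h2 : ((range (TT K d)).filter (fun u => algo K d u ≠ 0)).card =
      ∑ u ∈ range (TT K d), (if algo K d u = 0 then 0 else 1) := by
    rw [Finset.card_filter]
    refine Finset.sum_congr rfl fun u _ => ?_
    by_cases h : algo K d u = 0
    · rw [if_pos h, if_neg (not_not.2 h)]
    · rw [if_neg h, if_pos h]
  have h3 : (fun c : Code => ∑ x ∈ Xs d.sum c,
      (if out d.sum (gr d.length (edg d.sum c (ex x))) = 0 then 0 else 1)) =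
      fun c : Code => ∏ j ∈ range d.sum, F (j + 1) (cnt c (j + 1)) := by
    funext c
    rw [← card_Xs, Finset.card_eq_sum_ones]
    refine Finset.sum_congr rfl fun x _ => ?_
    rw [if_neg]
    unfold out
    omega
  rw [h2, h1, h3, Nat.cast_mul, (hGLN d).2.2]
  congr 1
  refine hGCD ℝ d _ _ hd ?_
  intro c hc
  have h4 := (hCDV d c hc).2.2.2.1
  push_cast
  have hsub : range d.sum ⊆ range (K + d.sum) := by
    intro j hj
    rw [Finset.mem_range] at hj ⊢
    omega
  refine Finset.prod_subset hsub ?_
  intro j _ hj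
  rw [Finset.mem_range, not_lt] at hj
  rw [h4 (j + 1) (by omega), F, Nat.cast_one]

end Pool.Agent.UMG.D.H95
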