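import Mathlib
import Pool.Agent.UMG.StmtsA

/-!
# Squad UMG, block A: row AIN
-/

set_option autoImplicit false

namespace Pool.Agent.UMG.A.H95

open Finset Pool.Agent.UMG

theorem split_sorted (k : ℕ) : ∀ t : List ℕ, t.Pairwise (· ≤ ·) → (∀ a ∈ t, k ≤ a) →
    t = List.replicate (t.count k) k ++ t.filter (fun a => decide (a ≠ k)) := by
  intro t
  induction t with
  | nil => intro _ _; rfl
  | cons a s ih =>
    intro hs hk
    rw [List.pairwise_cons] at hs
    by_cases ha : a = k
    · subst ha
      have h1 := ih hs.2 fun b hb => hk b (List.mem_cons_of_mem _ hb)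
      rw [List.count_cons_self, List.replicate_succ, List.cons_append,
        List.filter_cons_of_neg (by simp), ← h1]
    · have hka : k < a := lt_of_le_of_ne (hk a List.mem_cons_self) (Ne.symm ha)
      have hne : ∀ b ∈ a :: s, b ≠ k := by
        intro b hb
        rcases List.mem_cons.1 hb with rfl | hb
        · exact ha
        · have := hs.1 b hb
          omega
      have h2 : (a :: s).count k = 0 := List.count_eq_zero.2 fun h => hne k h rfl
      rw [h2, List.replicate_zero, List.nil_append, List.filter_eq_self.2]
      intro b hb
      exact decide_eq_true (hne b hb)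

/-- product over the distinct entries of a list of a function of the multiplicities -/
theorem prod_rep {R : Type} [CommSemiring R] (f : ℕ → ℕ → R) (k a : ℕ) (h0 : f k 0 = 1)
    {t : List ℕ} (ht : k ∉ t) :
    ∏ j ∈ (List.replicate a k ++ t).toFinset, f j ((List.replicate a k ++ t).count j) =
      f k a * ∏ j ∈ t.toFinset, f j (t.count j) := by
  have hcount : ∀ j ∈ t.toFinset, (List.replicate a k ++ t).count j = t.count j := by
    intro j hj
    have hjk : k ≠ j := fun h => ht (h ▸ List.mem_toFinset.1 hj)
    rw [List.count_append, List.count_replicate, if_neg (by simpa using hjk), Nat.zero_add]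
  have hk : (List.replicate a k ++ t).count k = a := by
    rw [List.count_append, List.count_replicate_self, List.count_eq_zero.2 ht, Nat.add_zero]
  rcases Nat.eq_zero_or_pos a with rfl | hpos
  · rw [h0, one_mul, List.replicate_zero, List.nil_append]
  · have hins : (List.replicate a k ++ t).toFinset = insert k t.toFinset := by
      ext j
      rw [List.mem_toFinset, List.mem_append, List.mem_replicate, Finset.mem_insert,
        List.mem_toFinset]
      constructor
      · rintro (⟨_, h⟩ | h)
        · exact Or.inl h
        · exact Or.inr h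
      · rintro (h | h)
        · exact Or.inl ⟨by omega, h⟩
        · exact Or.inr h
    rw [hins, Finset.prod_insert (by rwa [List.mem_toFinset]), hk]
    congr 1
    exact Finset.prod_congr rfl fun j hj => by rw [hcount j hj]

theorem gam_rep (k a : ℕ) {t : List ℕ} (ht : k ∉ t) :
    gam (List.replicate a k ++ t) = a.factorial * k.factorial ^ a * gam t :=
  prod_rep (fun j c => c.factorial * j.factorial ^ c) k a (by simp) ht

theorem PP_rep {R : Type} [CommRing R] [Algebra ℚ R] (x : ℕ → R) (k a : ℕ) {t : List ℕ}
    (ht : k ∉ t) : PP x (List.replicate a k ++ t) = aa x k a * PP x t :=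
  prod_rep (fun j c => aa x j c) k a (by unfold aa; rw [E]) ht

theorem aa_succ {R : Type} [CommRing R] [Algebra ℚ R] (x : ℕ → R) (k m : ℕ) :
    ∑ i ∈ range (m + 1), hh x (i + 1) k * aa x k (m - i) = ((m : R) + 1) * aa x k (m + 1) := by
  have h1 : aa x k (m + 1) = ((1 : ℚ) / ((m : ℚ) + 1)) •
      ∑ i ∈ range (m + 1), hh x (i + 1) k * aa x k (m - i) := by
    unfold aa
    rw [E]
  have h2 : ((m : R) + 1) = algebraMap ℚ R ((m : ℚ) + 1) := by
    rw [map_add, map_natCast, map_one]
  rw [h1, h2, ← Algebra.smul_def, smul_smul]
  have h3 : ((m : ℚ) + 1) * (1 / ((m : ℚ) + 1)) = 1 := by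
    have : ((m : ℚ) + 1) ≠ 0 := by positivity
    field_simp
  rw [h3, one_smul]

theorem ain (hEIN : EinStmt) : AinStmt := by
  intro R _ _ x d
  induction hn : d.length using Nat.strong_induction_on generalizing d with
  | _ n ih =>
    intro hd
    cases d with
    | nil =>
      rw [Aint]
      simp [gam, PP]
    | cons k t =>
      rw [List.pairwise_cons] at hd
      obtain ⟨hk, ht⟩ := hd
      obtain ⟨m, hm⟩ : ∃ m, m = t.count k := ⟨_, rfl⟩
      obtain ⟨t', ht'⟩ : ∃ t', t' = t.filter (fun a => decide (a ≠ k)) := ⟨_, rfl⟩
      have hsplit : t = List.replicate m k ++ t' := by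
        rw [hm, ht']
        exact split_sorted k t ht hk
      have hkt' : k ∉ t' := by
        rw [ht', List.mem_filter]
        rintro ⟨_, h⟩
        simp at h
      have hdrop : ∀ i ≤ m, t.drop i = List.replicate (m - i) k ++ t' := by
        intro i hi
        rw [hsplit, List.drop_append_of_le_length (by rw [List.length_replicate]; exact hi),
          List.drop_replicate]
      have hcons : k :: t = List.replicate (m + 1) k ++ t' := by
        rw [List.replicate_succ, List.cons_append, ← hsplit]
      rw [Aint, ← hm]
      have hterm : ∀ i ∈ range (m + 1), ((m.descFactorial i : ℕ) : R) * (k.factorial : R) ^ i *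
          Eint x (i + 1) k * Aint x (t.drop i) =
          ((m.factorial : ℕ) : R) * (k.factorial : R) ^ (m + 1) * (gam t' : R) * PP x t' *
            (hh x (i + 1) k * aa x k (m - i)) := by
        intro i hi
        have him : i ≤ m := Nat.lt_succ_iff.1 (Finset.mem_range.1 hi)
        have h1 := ih (t.drop i).length (by
          rw [← hn, List.length_drop, List.length_cons]
          omega) (t.drop i) rfl (List.Pairwise.sublist (List.drop_sublist i t) ht)
        rw [h1, hdrop i him, gam_rep k (m - i) hkt', PP_rep x k (m - i) hkt', hEIN]
        have h2 : ((m.factorial : ℕ) : R) = ((m.descFactorial i : ℕ) : R) *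
            (((m - i).factorial : ℕ) : R) := by
          rw [← Nat.cast_mul, Nat.mul_comm, Nat.factorial_mul_descFactorial him]
        have h3 : (k.factorial : R) ^ (m + 1) = (k.factorial : R) ^ i * (k.factorial : R) *
            (k.factorial : R) ^ (m - i) := by
          rw [← pow_succ, ← pow_add]
          congr 1
          omega
        rw [h2, h3]
        push_cast
        ring
      rw [Finset.sum_congr rfl hterm, ← Finset.mul_sum, aa_succ, hcons, gam_rep k (m + 1) hkt',
        PP_rep x k (m + 1) hkt', Nat.factorial_succ]
      push_cast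
      ring

end Pool.Agent.UMG.A.H95
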