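import Mathlib
import Pool.Agent.UMG.StmtsB

/-!
# Squad UMG, block B: row GSM (the sum over the automorphisms is `gsum`)
-/

set_option autoImplicit false

namespace Pool.Agent.UMG.B.H95

open Finset Pool.Agent.UMG Pool.Agent.UMG.B

theorem split_sorted (k : ℕ) : ∀ t : List ℕ, t.Pairwise (· ≤ ·) → (∀ a ∈ t, k ≤ a) →
    t = List.replicate (t.count k) k ++ t.filter (fun a => decide (a ≠ k)) := by
  intro t
  induction t with
  | nil => intro _ _; rfl
  | cons a s ih =>
    intro hs hk
    rw [List.pairwise_cons] at hs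
    by_cases ha : a = k
    · subst ha
      have h1 := ih hs.2 fun b hb => hk b (List.mem_cons_of_mem _ hb)
      rw [List.count_cons_self, List.replicate_succ, List.cons_append,
        List.filter_cons_of_neg (by simp), ← h1]
    · have hka : k < a := lt_of_le_of_ne (hk a List.mem_cons_self) (Ne.symm ha)
      have hne : ∀ b ∈ a :: s, b ≠ k := by
        intro b hb
        rcases List.mem_cons.1 hb with rfl | hb
        · exact ha
        · have := hs.1 b hb
          omega
      have h2 : (a :: s).count k = 0 := List.count_eq_zero.2 fun h => hne k h rfl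
      rw [h2, List.replicate_zero, List.nil_append, List.filter_eq_self.2]
      intro b hb
      exact decide_eq_true (hne b hb)

theorem gs_nil {Ψ : SF} (hΨ : Inv Ψ) : GS Ψ (nus []) = Ψ (Vc []) (Hc []) (nuc []) (gc []) := by
  have hH : IsEmpty (Hs []) := inferInstanceAs (IsEmpty Empty)
  have hV : IsEmpty (Vs []) := inferInstanceAs (IsEmpty Empty)
  have hH' : IsEmpty (Hc []) := inferInstanceAs (IsEmpty Empty)
  have hV' : IsEmpty (Vc []) := inferInstanceAs (IsEmpty Empty)
  have huniq : ∀ γ : Gam (nus []), γ = 1 := by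
    intro γ
    apply Subtype.ext
    apply Prod.ext
    · exact Equiv.ext fun h => isEmptyElim h
    · exact Equiv.ext fun v => isEmptyElim v
  let _ : Unique (Gam (nus [])) := ⟨⟨1⟩, huniq⟩
  unfold GS
  rw [finsum_unique]
  exact hΨ _ _ _ _ _ _ _ _ ⟨Equiv.equivOfIsEmpty _ _, Equiv.equivOfIsEmpty _ _,
    fun h => isEmptyElim h, fun h => isEmptyElim h⟩

theorem gsm (hWSM : WsmStmt) (hGWS : GwsStmt) (hGSP : GspStmt) (hGSI : GsiStmt) (hSTA : StaStmt)
    (hBLK : BlkStmt) : GsmStmt := by
  intro Ψ hΨ d
  induction hn : d.length using Nat.strong_induction_on generalizing Ψ d with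
  | _ n ih =>
    intro hd
    rcases hdc : d with _ | ⟨k, d'⟩
    · rw [gsum]
      exact gs_nil hΨ
    · rw [← hdc]
      have hk : ∀ a ∈ d, k ≤ a := by
        rw [hdc] at hd ⊢
        rw [List.pairwise_cons] at hd
        intro a ha
        rcases List.mem_cons.1 ha with rfl | ha
        · exact le_refl _
        · exact hd.1 a ha
      obtain ⟨m, hm⟩ : ∃ m, m = d.count k := ⟨_, rfl⟩
      obtain ⟨t, ht⟩ : ∃ t, t = d.filter (fun a => decide (a ≠ k)) := ⟨_, rfl⟩
      have hsplit : d = List.replicate m k ++ t := by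
        rw [hm, ht]
        exact split_sorted k d hd hk
      have hkt : k ∉ t := by
        rw [ht, List.mem_filter]
        rintro ⟨_, h⟩
        simp at h
      have hm1 : 1 ≤ m := by
        rw [hm, hdc, List.count_cons_self]
        omega
      have htlen : t.length < n := by
        have h1 : d.length = m + t.length := by
          rw [hsplit, List.length_append, List.length_replicate]
        omega
      have htp : t.Pairwise (· ≤ ·) := by
        rw [ht]
        exact hd.sublist List.filter_sublist
      have hdeg : ∀ v, Nat.card {h // nus t h = v} ≠ k := by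
        intro v h
        have h1 := hBLK.2 t v
        rw [h] at h1
        exact hkt h1
      -- the function of the first part
      have hInv' : Inv (fun V H ν g => gsum t (fun c' => Ψ (V ⊕ Vc c') (H ⊕ Hc c')
          (Sum.map ν (nuc c')) (Equiv.sumCongr g (gc c')))) := by
        intro V H V' H' ν g ν' g' hSI
        have h1 : (fun c' => Ψ (V ⊕ Vc c') (H ⊕ Hc c') (Sum.map ν (nuc c'))
            (Equiv.sumCongr g (gc c'))) = fun c' => Ψ (V' ⊕ Vc c') (H' ⊕ Hc c')
            (Sum.map ν' (nuc c')) (Equiv.sumCongr g' (gc c')) := by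
          funext c'
          exact hΨ _ _ _ _ _ _ _ _ (hSI.sum (SI.refl _ _))
        exact congrArg (gsum t) h1
      calc GS Ψ (nus d) = GS Ψ (nus (List.replicate m k ++ t)) := by rw [← hsplit]
        _ = GS Ψ (Sum.map (Prod.fst : Fin m × Fin k → Fin m) (nus t)) :=
            hGSI Ψ hΨ _ _ _ _ _ _ (hBLK.1 m k t)
        _ = ∑ π : Equiv.Perm (Fin m), ∑ σ : Fin m → Equiv.Perm (Fin k),
              GS (ad (Prod.fst : Fin m × Fin k → Fin m) (wr π σ) Ψ) (nus t) :=
            hGSP Ψ m k (Vs t) (Hs t) (nus t) hdeg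
        _ = ∑ π : Equiv.Perm (Fin m), ∑ σ : Fin m → Equiv.Perm (Fin k),
              gsum t (fun c' => Ψ (Fin m ⊕ Vc c') ((Fin m × Fin k) ⊕ Hc c')
                (Sum.map Prod.fst (nuc c')) (Equiv.sumCongr (wr π σ) (gc c'))) := by
            refine Finset.sum_congr rfl fun π _ => Finset.sum_congr rfl fun σ _ => ?_
            exact ih t.length htlen _ (hΨ.ad _ _) t rfl htp
        _ = wsum m k (fun c => gsum t (fun c' => Ψ (Vc c ⊕ Vc c') (Hc c ⊕ Hc c')
              (Sum.map (nuc c) (nuc c')) (Equiv.sumCongr (gc c) (gc c')))) :=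
            hWSM _ hInv' m k
        _ = wsum m k (fun c => gsum t (fun c' => Ψ (Vc (c ++ c')) (Hc (c ++ c'))
              (nuc (c ++ c')) (gc (c ++ c')))) := by
            have h1 : (fun c => gsum t (fun c' => Ψ (Vc c ⊕ Vc c') (Hc c ⊕ Hc c')
                (Sum.map (nuc c) (nuc c')) (Equiv.sumCongr (gc c) (gc c')))) =
                fun c => gsum t (fun c' => Ψ (Vc (c ++ c')) (Hc (c ++ c'))
                (nuc (c ++ c')) (gc (c ++ c'))) := by
              funext c
              have h2 : (fun c' => Ψ (Vc c ⊕ Vc c') (Hc c ⊕ Hc c')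
                  (Sum.map (nuc c) (nuc c')) (Equiv.sumCongr (gc c) (gc c'))) =
                  fun c' => Ψ (Vc (c ++ c')) (Hc (c ++ c')) (nuc (c ++ c')) (gc (c ++ c')) := by
                funext c'
                exact hΨ _ _ _ _ _ _ _ _ (hSTA c c')
              rw [h2]
            rw [h1]
        _ = gsum (List.replicate m k ++ t) (fun c => Ψ (Vc c) (Hc c) (nuc c) (gc c)) :=
            (hGWS (fun c => Ψ (Vc c) (Hc c) (nuc c) (gc c)) m k t hkt).symm
        _ = gsum d (fun c => Ψ (Vc c) (Hc c) (nuc c) (gc c)) := by rw [← hsplit]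

end Pool.Agent.UMG.B.H95
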